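import Pool.Agent.H35R2.ThEA

set_option autoImplicit false

namespace Pool.Agent.H35R2

open Set

abbrev OI := ℝ ≃o ℝ

theorem oi_mul (f g : OI) (t : ℝ) : (f * g) t = f (g t) := rfl

theorem oi_inv_app (f : OI) (t : ℝ) : f⁻¹ (f t) = t := f.symm_apply_apply t

theorem oi_app_inv (f : OI) (t : ℝ) : f (f⁻¹ t) = t := f.apply_symm_apply t

theorem oi_one (t : ℝ) : (1 : OI) t = t := rfl

theorem oi_ext {f g : OI} (h : ∀ t, f t = g t) : f = g := DFunLike.ext _ _ h

/-- maps with disjoint supports commute -/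
theorem oi_comm {u v : OI} {q : ℝ} (hu : ∀ t, q ≤ t → u t = t) (hv : ∀ t, t ≤ q → v t = t) :
    u * v = v * u := by
  apply oi_ext
  intro t
  rw [oi_mul, oi_mul]
  rcases le_total q t with h | h
  · rw [hu t h]
    apply hu
    have := v.monotone h
    rwa [hv q le_rfl] at this
  · rw [hv t h]
    symm
    apply hv
    have := u.monotone h
    rwa [hu q le_rfl] at this

theorem comm_rel {u v : OI} (h : u * v = v * u) : u * v * u⁻¹ * v⁻¹ = 1 := by
  rw [h]; group

/-- iterates escape to infinity -/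
theorem oi_escape (f : OI) (c : ℝ) (hf : ∀ t, c < t → t < f t) (p : ℝ) (hp : c < p) (q : ℝ) :
    ∃ n : ℕ, q ≤ (f ^ n) p := by
  by_contra hcon
  push Not at hcon
  have hbdd : BddAbove (range fun n : ℕ => (f ^ n) p) := ⟨q, by
    rintro _ ⟨n, rfl⟩
    exact (hcon n).le⟩
  set L := sSup (range fun n : ℕ => (f ^ n) p) with hL
  have hpL : p ≤ L := le_csSup hbdd ⟨0, by simp [oi_one]⟩
  have h1 : L < f L := hf L (hp.trans_le hpL)
  have h2 : f⁻¹ L < L := by
    have := f⁻¹.strictMono h1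
    rwa [oi_inv_app] at this
  obtain ⟨_, ⟨n, rfl⟩, hn⟩ := exists_lt_of_lt_csSup (range_nonempty _) h2
  have h3 : L < (f ^ (n + 1)) p := by
    have := f.strictMono hn
    rw [oi_app_inv] at this
    rw [pow_succ', oi_mul]
    exact this
  exact absurd (le_csSup hbdd ⟨n + 1, rfl⟩) (not_le.2 h3)

theorem oi_pow_fix (f : OI) (n : ℕ) (hn : n ≠ 0) (t : ℝ) (h : (f ^ n) t = t) : f t = t := by
  rcases lt_trichotomy (f t) t with h1 | h1 | h1
  · exfalso
    have : ∀ m : ℕ, (f ^ (m + 1)) t < t := by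
      intro m
      induction m with
      | zero => simpa using h1
      | succ m ih =>
        rw [pow_succ', oi_mul]
        exact (f.strictMono ih).trans h1
    obtain ⟨m, rfl⟩ : ∃ m, n = m + 1 := ⟨n - 1, by omega⟩
    exact absurd h (this m).ne
  · exact h1
  · exfalso
    have : ∀ m : ℕ, t < (f ^ (m + 1)) t := by
      intro m
      induction m with
      | zero => simpa using h1
      | succ m ih =>
        rw [pow_succ', oi_mul]
        exact h1.trans (f.strictMono ih)
    obtain ⟨m, rfl⟩ : ∃ m, n = m + 1 := ⟨n - 1, by omega⟩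
    exact absurd h (this m).ne'

theorem oi_pow_id (f : OI) (c : ℝ) (hf : ∀ t, t ≤ c → f t = t) (n : ℕ) (t : ℝ) (ht : t ≤ c) :
    (f ^ n) t = t := by
  induction n with
  | zero => rfl
  | succ n ih => rw [pow_succ, oi_mul, hf t ht, ih]

theorem oi_pow_trans (f : OI) (T : ℝ) (hf : ∀ t, T ≤ t → f t = t + 1) (n : ℕ) (t : ℝ) (ht : T ≤ t) :
    (f ^ n) t = t + n := by
  induction n with
  | zero => simp [oi_one]
  | succ n ih =>
    rw [pow_succ', oi_mul, ih, hf]
    · push_cast; ring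
    · have : (0 : ℝ) ≤ n := Nat.cast_nonneg n
      linarith

/-- Brin's ubiquity argument -/
theorem brin (f h : OI) (c c1 k T : ℝ) (h1 : ∀ t, t ≤ c → f t = t) (h2 : ∀ t, c1 < t → t < f t)
    (h3 : ∀ t, c < t → ∃ s ≤ t, f s ≠ s) (h4 : ∀ t, T ≤ t → f t = t + 1)
    (h5 : ∀ t, T ≤ t → h t = t + k) (h6 : c1 < h c) :
    ∃ n : ℕ, FRel (f ^ n)⁻¹ (h * f ^ n * h⁻¹)⁻¹ ∧
      (f ^ n)⁻¹ * (h * f ^ n * h⁻¹)⁻¹ ≠ (h * f ^ n * h⁻¹)⁻¹ * (f ^ n)⁻¹ := by
  set p := h c with hp
  set q := max T (T + k) with hq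
  -- f and h f h⁻¹ agree beyond q
  have hinv : ∀ t, T + k ≤ t → h⁻¹ t = t - k := by
    intro t ht
    have := h5 (t - k) (by linarith)
    rw [sub_add_cancel] at this
    have h7 := congrArg (fun z => h⁻¹ z) this
    simp only [oi_inv_app] at h7
    exact h7.symm
  obtain ⟨n, hn⟩ := oi_escape f c1 h2 p h6 (max q (p + 1))
  have hnq : q ≤ (f ^ n) p := (le_max_left _ _).trans hn
  have hnp : p < (f ^ n) p := by
    have := (le_max_right q (p + 1)).trans hn
    linarith
  have hn0 : n ≠ 0 := by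
    rintro rfl
    simp [oi_one] at hnp
  have hnn : (0 : ℝ) ≤ n := Nat.cast_nonneg n
  set A := f ^ n with hA
  set B := h * f ^ n * h⁻¹ with hB
  have hBp : ∀ t, t ≤ p → B t = t := by
    intro t ht
    rw [hB, oi_mul, oi_mul, oi_pow_id f c h1 n, oi_app_inv]
    have := h⁻¹.monotone ht
    rwa [hp, oi_inv_app] at this
  have hAq : ∀ t, q ≤ t → A t = t + n := fun t ht =>
    oi_pow_trans f T h4 n t ((le_max_left _ _).trans ht)
  have hBq : ∀ t, q ≤ t → B t = t + n := by
    intro t ht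
    have hTk : T + k ≤ t := (le_max_right _ _).trans ht
    rw [hB, oi_mul, oi_mul, hinv t hTk, oi_pow_trans f T h4 n _ (by linarith), h5 _ (by linarith)]
    ring
  -- A⁻¹ B fixes [q, ∞)
  have hAB : ∀ t, q ≤ t → (A⁻¹ * B) t = t := by
    intro t ht
    rw [oi_mul, hBq t ht, ← hAq t ht, oi_inv_app]
  have hApow : ∀ t, c1 < t → t < A t := by
    intro t ht
    have : ∀ m : ℕ, t < (f ^ (m + 1)) t := by
      intro m
      induction m with
      | zero => simpa using h2 t ht
      | succ m ih =>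
        rw [pow_succ', oi_mul]
        exact ih.trans (h2 _ (ht.trans ih))
    obtain ⟨m, hm⟩ : ∃ m, n = m + 1 := ⟨n - 1, by omega⟩
    rw [hA, hm]
    exact this m
  have hnq2 : q ≤ A (A p) := hnq.trans (hApow _ (h6.trans hnp)).le
  -- A B A⁻¹ fixes (-∞, q]
  have hABA : ∀ t, t ≤ q → (A * B⁻¹ * A⁻¹) t = t := by
    intro t ht
    have h7 : A⁻¹ t ≤ p := by
      have := A⁻¹.monotone (ht.trans hnq)
      rwa [oi_inv_app] at this
    have h8 : B⁻¹ (A⁻¹ t) = A⁻¹ t := by
      have := hBp _ h7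
      conv_lhs => rw [← this]
      rw [oi_inv_app]
    rw [oi_mul, oi_mul, h8, oi_app_inv]
  have hAABA : ∀ t, t ≤ q → (A * A * B⁻¹ * A⁻¹ * A⁻¹) t = t := by
    intro t ht
    have h7 : A⁻¹ (A⁻¹ t) ≤ p := by
      have := A⁻¹.monotone (A⁻¹.monotone (ht.trans hnq2))
      rwa [oi_inv_app, oi_inv_app] at this
    have h8 : B⁻¹ (A⁻¹ (A⁻¹ t)) = A⁻¹ (A⁻¹ t) := by
      have := hBp _ h7
      conv_lhs => rw [← this]
      rw [oi_inv_app]
    rw [oi_mul, oi_mul, oi_mul, oi_mul, h8, oi_app_inv, oi_app_inv]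
  have hBc : ∀ s, B (h s) = h (A s) := by
    intro s
    show h ((f ^ n) (h⁻¹ (h s))) = h (A s)
    rw [oi_inv_app]
  refine ⟨n, ?_⟩
  rw [← hA, ← hB]
  clear_value A B
  refine ⟨⟨?_, ?_⟩, ?_⟩
  · have := comm_rel (oi_comm hAB hABA)
    simpa using this
  · have := comm_rel (oi_comm hAB hAABA)
    simpa [mul_assoc] using this
  · intro hcomm
    have hc : A * B = B * A := by
      have := congrArg (fun z => z⁻¹) hcomm
      simpa using this.symm
    -- B fixes (-∞, A p]
    have h9 : ∀ t, t ≤ A p → B t = t := by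
      intro t ht
      have h10 : A⁻¹ t ≤ p := by
        have := A⁻¹.monotone ht
        rwa [oi_inv_app] at this
      have h11 : A (B (A⁻¹ t)) = B (A (A⁻¹ t)) := congrArg (fun z : OI => z (A⁻¹ t)) hc
      rw [hBp _ h10, oi_app_inv] at h11
      exact h11.symm
    have h12 : c < h⁻¹ (A p) := by
      have := h⁻¹.strictMono hnp
      rwa [hp, oi_inv_app] at this
    obtain ⟨s, hs, hfs⟩ := h3 _ h12
    apply hfs
    apply oi_pow_fix f n hn0
    have h13 : h s ≤ A p := by
      have := h.monotone hs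
      rwa [oi_app_inv] at this
    have h14 := h9 _ h13
    rw [hBc] at h14
    rw [← hA]
    exact h.injective h14

/-- translation by an integer near `+∞` -/
def TopGerm (f : OI) (k : ℤ) : Prop := ∃ T : ℝ, ∀ t, T ≤ t → f t = t + k

/-- translation by an integer near `-∞` -/
def BotGerm (f : OI) (k : ℤ) : Prop := ∃ T : ℝ, ∀ t, t ≤ T → f t = t + k

theorem TopGerm.one : TopGerm 1 0 := ⟨0, fun t _ => by simp [oi_one]⟩

theorem BotGerm.one : BotGerm 1 0 := ⟨0, fun t _ => by simp [oi_one]⟩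

theorem TopGerm.mul {f g : OI} {k l : ℤ} (hf : TopGerm f k) (hg : TopGerm g l) :
    TopGerm (f * g) (k + l) := by
  obtain ⟨T, hT⟩ := hf
  obtain ⟨S, hS⟩ := hg
  refine ⟨max S (T - l), fun t ht => ?_⟩
  rw [oi_mul, hS t ((le_max_left _ _).trans ht), hT]
  · push_cast; ring
  · have := (le_max_right S (T - l)).trans ht
    linarith

theorem BotGerm.mul {f g : OI} {k l : ℤ} (hf : BotGerm f k) (hg : BotGerm g l) :
    BotGerm (f * g) (k + l) := by
  obtain ⟨T, hT⟩ := hf
  obtain ⟨S, hS⟩ := hg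
  refine ⟨min S (T - l), fun t ht => ?_⟩
  rw [oi_mul, hS t (ht.trans (min_le_left _ _)), hT]
  · push_cast; ring
  · have := ht.trans (min_le_right S (T - l))
    linarith

theorem TopGerm.inv {f : OI} {k : ℤ} (hf : TopGerm f k) : TopGerm f⁻¹ (-k) := by
  obtain ⟨T, hT⟩ := hf
  refine ⟨T + k, fun t ht => ?_⟩
  have := hT (t - k) (by linarith)
  have h7 := congrArg (fun z => f⁻¹ z) this
  simp only [oi_inv_app, sub_add_cancel] at h7
  rw [← h7]; push_cast; ring

theorem BotGerm.inv {f : OI} {k : ℤ} (hf : BotGerm f k) : BotGerm f⁻¹ (-k) := by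
  obtain ⟨T, hT⟩ := hf
  refine ⟨T + k, fun t ht => ?_⟩
  have := hT (t - k) (by linarith)
  have h7 := congrArg (fun z => f⁻¹ z) this
  simp only [oi_inv_app, sub_add_cancel] at h7
  rw [← h7]; push_cast; ring

/-- the case without global fixed points -/
theorem nofix (H : Subgroup OI) (hfix : ∀ a : ℝ, ∃ g ∈ H, g a ≠ a)
    (htop : ∀ g ∈ H, ∃ k, TopGerm g k) (f : OI) (hf : f ∈ H) (hft : TopGerm f 1)
    (hfb : BotGerm f 0) : HasF H := by
  obtain ⟨T, hT⟩ := hft
  obtain ⟨S, hS⟩ := hfb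
  simp only [Int.cast_one, Int.cast_zero, add_zero] at hT hS
  -- c
  set Z1 : Set ℝ := {t | ∀ s ≤ t, f s = s} with hZ1
  have hZ1ne : Z1.Nonempty := ⟨S, fun s hs => hS s hs⟩
  have hZ1b : ∀ t ∈ Z1, t ≤ T := by
    intro t ht
    by_contra hcon
    push Not at hcon
    have h1 := ht t le_rfl
    rw [hT t hcon.le] at h1
    linarith
  have hZ1bdd : BddAbove Z1 := ⟨T, hZ1b⟩
  set c := sSup Z1 with hc
  have hc0 : ∀ t, t < c → f t = t := by
    intro t ht
    obtain ⟨s, hs, hts⟩ := exists_lt_of_lt_csSup hZ1ne ht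
    exact hs t hts.le
  have hcc : f c = c := by
    apply le_antisymm
    · by_contra hcon
      push Not at hcon
      have h1 : f⁻¹ c < c := by
        have := f⁻¹.strictMono hcon
        rwa [oi_inv_app] at this
      have h2 := hc0 _ h1
      rw [oi_app_inv] at h2
      exact h1.ne h2.symm
    · by_contra hcon
      push Not at hcon
      have h2 := hc0 _ hcon
      have h3 := f.injective h2
      exact hcon.ne h3
  have h1 : ∀ t, t ≤ c → f t = t := by
    intro t ht
    rcases ht.lt_or_eq with h | h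
    · exact hc0 t h
    · rw [h, hcc]
  have h3 : ∀ t, c < t → ∃ s ≤ t, f s ≠ s := by
    intro t ht
    by_contra hcon
    push Not at hcon
    have : t ∈ Z1 := fun s hs => hcon s hs
    exact absurd (le_csSup hZ1bdd this) (not_le.2 ht)
  -- c1
  set Z2 : Set ℝ := {t | f t ≤ t} with hZ2
  have hZ2b : ∀ t ∈ Z2, t ≤ T := by
    intro t ht
    by_contra hcon
    push Not at hcon
    have h1 : f t ≤ t := ht
    rw [hT t hcon.le] at h1
    linarith
  have hZ2bdd : BddAbove Z2 := ⟨T, hZ2b⟩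
  set c1 := sSup Z2 with hc1
  have h2 : ∀ t, c1 < t → t < f t := by
    intro t ht
    by_contra hcon
    push Not at hcon
    exact absurd (le_csSup hZ2bdd hcon) (not_le.2 ht)
  -- the orbit of c is unbounded
  have horb : ∃ h ∈ H, c1 < h c := by
    by_contra hcon
    push Not at hcon
    set O : Set ℝ := {x | ∃ h ∈ H, x = h c} with hO
    have hOb : BddAbove O := ⟨c1, by
      rintro _ ⟨h, hh, rfl⟩
      exact hcon h hh⟩
    have hOne : O.Nonempty := ⟨c, 1, H.one_mem, rfl⟩
    obtain ⟨g, hg, hga⟩ := hfix (sSup O)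
    have key : ∀ g ∈ H, sSup O ≤ g (sSup O) := by
      intro g hg
      apply csSup_le hOne
      rintro _ ⟨h, hh, rfl⟩
      have h5 : (g⁻¹ * h) c ≤ sSup O := le_csSup hOb ⟨g⁻¹ * h, H.mul_mem (H.inv_mem hg) hh, rfl⟩
      have h6 := g.monotone h5
      rwa [oi_mul, oi_app_inv] at h6
    apply hga
    apply le_antisymm _ (key g hg)
    have h5 := g.monotone (key g⁻¹ (H.inv_mem hg))
    rwa [oi_app_inv] at h5
  obtain ⟨h, hh, h6⟩ := horb
  obtain ⟨k, S', hS'⟩ := htop h hh
  obtain ⟨n, hr, hne⟩ := brin f h c c1 k (max T S') h1 h2 h3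
    (fun t ht => hT t ((le_max_left _ _).trans ht))
    (fun t ht => hS' t ((le_max_right _ _).trans ht)) h6
  have hfn : (f ^ n)⁻¹ ∈ H := H.inv_mem (H.pow_mem hf n)
  have hfn' : (h * f ^ n * h⁻¹)⁻¹ ∈ H :=
    H.inv_mem (H.mul_mem (H.mul_mem hh (H.pow_mem hf n)) (H.inv_mem hh))
  refine ⟨⟨_, hfn⟩, ⟨_, hfn'⟩, FRel.of_map H.subtype H.subtype_injective hr, ?_⟩
  intro hcon
  exact hne (congrArg Subtype.val hcon)

/-- the translation `t ↦ t - 1` -/
noncomputable def trA : OI := OrderIso.addRight (-1)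

theorem trA_app (t : ℝ) : trA t = t - 1 := by simp [trA, sub_eq_add_neg]

/-- the second generator, as a function: identity on `(-∞,0]`, slope 2 on `[0,1]`, `t+1` on
`[1,∞)`. -/
noncomputable def fX (t : ℝ) : ℝ := max t (min (2 * t) (t + 1))

noncomputable def fY (t : ℝ) : ℝ := min t (max (t / 2) (t - 1))

theorem fX_eq (t : ℝ) : fX t = if t ≤ 0 then t else if t ≤ 1 then 2 * t else t + 1 := by
  unfold fX
  split_ifs with h1 h2
  · rw [min_eq_left (by linarith), max_eq_left (by linarith)]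
  · rw [min_eq_left (by linarith), max_eq_right (by linarith)]
  · rw [min_eq_right (by linarith), max_eq_right (by linarith)]

theorem fY_eq (t : ℝ) : fY t = if t ≤ 0 then t else if t ≤ 2 then t / 2 else t - 1 := by
  unfold fY
  split_ifs with h1 h2
  · rw [max_eq_left (by linarith), min_eq_left (by linarith)]
  · rw [max_eq_left (by linarith), min_eq_right (by linarith)]
  · rw [max_eq_right (by linarith), min_eq_right (by linarith)]

theorem fX_fY (t : ℝ) : fX (fY t) = t := by
  rw [fX_eq, fY_eq]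
  split_ifs <;> linarith

theorem fY_fX (t : ℝ) : fY (fX t) = t := by
  rw [fX_eq, fY_eq]
  split_ifs <;> linarith

theorem fX_mono : Monotone fX := by
  intro s t h
  unfold fX
  apply max_le_max h (min_le_min _ _) <;> linarith

theorem fY_mono : Monotone fY := by
  intro s t h
  unfold fY
  apply min_le_min h (max_le_max _ _) <;> linarith

/-- the second generator `x₁` (expanding) -/
noncomputable def trX : OI where
  toFun := fX
  invFun := fY
  left_inv := fY_fX
  right_inv := fX_fY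
  map_rel_iff' := by
    intro s t
    constructor
    · intro h
      have := fY_mono h
      simpa [fY_fX] using this
    · intro h
      exact fX_mono h

theorem trX_le0 (t : ℝ) (h : t ≤ 0) : trX t = t := by
  show fX t = t
  rw [fX_eq, if_pos h]

theorem trX_ge1 (t : ℝ) (h : 1 ≤ t) : trX t = t + 1 := by
  show fX t = t + 1
  rw [fX_eq, if_neg (by linarith)]
  split_ifs with h1
  · have : t = 1 := le_antisymm h1 h
    rw [this]; norm_num
  · rfl

theorem trX_gt0 (t : ℝ) (h : 0 < t) : t < trX t := by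
  show t < fX t
  rw [fX_eq, if_neg (by linarith)]
  split_ifs <;> linarith

end Pool.Agent.H35R2
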