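import Pool.Agent.H35R2.ThF

set_option autoImplicit false

namespace Pool.Agent.H35R2

/-- the class of groups no section of which contains a nonabelian quotient of F -/
def CC (G : Type) [Group G] : Prop :=
  ∀ (H K : Type) [Group H] [Group K] (i : H →* G) (p : H →* K),
    Function.Injective i → Function.Surjective p → ¬ HasF K

theorem FRel.map {G K : Type} [Group G] [Group K] (f : G →* K) {a b : G} (h : FRel a b) :
    FRel (f a) (f b) := by
  constructor
  · have := congrArg f h.1
    simpa using this
  · have := congrArg f h.2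
    simpa using this

theorem FRel.of_map {G K : Type} [Group G] [Group K] (f : G →* K) (hf : Function.Injective f)
    {a b : G} (h : FRel (f a) (f b)) : FRel a b := by
  constructor
  · apply hf
    have := h.1
    simpa using this
  · apply hf
    have := h.2
    simpa using this

theorem not_hasF_of_finite (K : Type) [Group K] [Finite K] : ¬ HasF K := by
  rintro ⟨a, b, h, hne⟩
  apply hne
  obtain ⟨n, hn, han⟩ := isOfFinOrder_iff_pow_eq_one.1 (isOfFinOrder_of_finite a)
  -- x_n = x_0
  have e : ∀ m, xs a b (n + m) = xs a b m := by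
    intro m
    rw [← conj_pow_xs, han]; group
  have h1 := xs_conj h 0 n hn
  have h2 : xs a b n = xs a b 0 := e 0
  rw [e 1, h2] at h1
  -- x0 = x1
  have h3 : xs a b 0 = xs a b 1 := by
    calc xs a b 0 = (xs a b 0)⁻¹ * xs a b 0 * xs a b 0 := by group
      _ = _ := h1
  rw [← xs_succ, xs_zero] at h3
  calc a * b = a * (a⁻¹ * b * a) := by rw [← h3]
    _ = b * a := by group

theorem CC_finite (G : Type) [Group G] [Finite G] : CC G := by
  intro H K _ _ i p hi hp
  have : Finite H := Finite.of_injective i hi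
  have : Finite K := Finite.of_surjective p hp
  exact not_hasF_of_finite K

theorem CC_comm (G : Type) [CommGroup G] : CC G := by
  rintro H K _ _ i p hi hp ⟨a, b, -, hne⟩
  apply hne
  obtain ⟨x, rfl⟩ := hp a
  obtain ⟨y, rfl⟩ := hp b
  rw [← map_mul, ← map_mul]
  congr 1
  apply hi
  rw [map_mul, map_mul, mul_comm]

theorem CC_of_inj (G G' : Type) [Group G] [Group G'] (f : G' →* G) (hf : Function.Injective f)
    (h : CC G) : CC G' := by
  intro H K _ _ i p hi hp
  exact h H K (f.comp i) p (hf.comp hi) hp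

theorem CC_of_surj (G Q : Type) [Group G] [Group Q] (f : G →* Q) (hf : Function.Surjective f)
    (h : CC G) : CC Q := by
  intro H K _ _ i p hi hp
  -- pullback
  let P : Subgroup (G × H) := (f.comp (MonoidHom.fst G H)).eqLocus (i.comp (MonoidHom.snd G H))
  refine h P K ((MonoidHom.fst G H).comp P.subtype) (p.comp ((MonoidHom.snd G H).comp P.subtype))
    ?_ ?_
  · rintro ⟨⟨g, x⟩, hx⟩ ⟨⟨g', x'⟩, hx'⟩ hgg
    have h1 : g = g' := hgg
    subst h1
    have h2 : f g = i x := hx
    have h3 : f g = i x' := hx'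
    have : x = x' := hi (h2.symm.trans h3)
    subst this
    rfl
  · intro k
    obtain ⟨x, rfl⟩ := hp k
    obtain ⟨g, hg⟩ := hf (i x)
    exact ⟨⟨⟨g, x⟩, hg⟩, rfl⟩

theorem CC_ext (G : Type) [Group G] (N : Subgroup G) [N.Normal] (hN : CC ↥N) (hQ : CC (G ⧸ N)) :
    CC G := by
  rintro H K _ _ i p hi hp ⟨a, b, hrel, hne⟩
  let NH : Subgroup H := N.comap i
  let R : Subgroup K := NH.map p
  have hR : R.Normal := Subgroup.Normal.map inferInstance p hp
  -- K/R is a quotient of H/NH, which embeds in G/N
  have hNH : NH.Normal := inferInstance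
  let i' : H ⧸ NH →* G ⧸ N := QuotientGroup.map NH N i le_rfl
  have hi' : Function.Injective i' := by
    rw [injective_iff_map_eq_one]
    intro x
    induction x using QuotientGroup.induction_on with
    | H x =>
      intro hx
      rw [QuotientGroup.eq_one_iff]
      have : (QuotientGroup.mk (i x) : G ⧸ N) = 1 := hx
      rw [QuotientGroup.eq_one_iff] at this
      exact this
  let p' : H ⧸ NH →* K ⧸ R := QuotientGroup.map NH R p (Subgroup.le_comap_map p NH)
  have hp' : Function.Surjective p' := by
    intro y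
    induction y using QuotientGroup.induction_on with
    | H y =>
      obtain ⟨x, rfl⟩ := hp y
      exact ⟨QuotientGroup.mk x, rfl⟩
  have hno := hQ (H ⧸ NH) (K ⧸ R) i' p' hi' hp'
  -- images of a and b in K/R commute
  have hcomm : (QuotientGroup.mk' R a) * (QuotientGroup.mk' R b) =
      (QuotientGroup.mk' R b) * (QuotientGroup.mk' R a) := by
    by_contra hcon
    exact hno ⟨_, _, hrel.map (QuotientGroup.mk' R), hcon⟩
  -- hence all x_n agree mod R
  have hx : ∀ n, QuotientGroup.mk' R (xs a b n) = QuotientGroup.mk' R b := by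
    intro n
    induction n with
    | zero => rw [xs_zero]
    | succ n ih =>
      rw [← xs_succ, map_mul, map_mul, ih, map_inv]
      rw [mul_assoc, ← hcomm]; group
  have hca : ca a b ∈ R := by
    have : QuotientGroup.mk' R (ca a b) = 1 := by
      unfold ca
      rw [map_mul, map_inv, hx, hx]; group
    exact (QuotientGroup.eq_one_iff _).1 this
  have hcb : cb a b ∈ R := by
    have : QuotientGroup.mk' R (cb a b) = 1 := by
      unfold cb
      simp only [map_mul, map_inv, hx]; group
    exact (QuotientGroup.eq_one_iff _).1 this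
  -- R is a quotient of NH which embeds in N
  let i2 : NH →* N := (i.subgroupComap N)
  have hi2 : Function.Injective i2 := by
    rintro ⟨x, hx⟩ ⟨y, hy⟩ hxy
    have : i x = i y := congrArg Subtype.val hxy
    exact Subtype.ext (hi this)
  have hno2 := hN NH R i2 (p.subgroupMap NH) hi2 (p.subgroupMap_surjective NH)
  apply hno2
  refine ⟨⟨ca a b, hca⟩, ⟨cb a b, hcb⟩, ?_, ?_⟩
  · exact FRel.of_map R.subtype R.subtype_injective (frel_c hrel)
  · intro hcon
    exact c_noncomm hrel hne (congrArg Subtype.val hcon)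

theorem CC_union (G : Type) [Group G] (ι : Type) (U : ι → Subgroup G)
    (hdir : Directed (· ≤ ·) U) (hU : ∀ i, CC ↥(U i)) (htop : (⨆ i, U i) = ⊤) : CC G := by
  rintro H K _ _ i p hi hp ⟨a, b, hrel, hne⟩
  obtain ⟨x, rfl⟩ := hp a
  obtain ⟨y, rfl⟩ := hp b
  rcases isEmpty_or_nonempty ι with he | he
  · -- G is trivial
    have hbot : (⊤ : Subgroup G) = ⊥ := by rw [← htop]; exact iSup_of_empty U
    have : ∀ g : G, g = 1 := fun g => by
      have : g ∈ (⊥ : Subgroup G) := hbot ▸ Subgroup.mem_top g
      exact Subgroup.mem_bot.1 this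
    apply hne
    have hx : x = 1 := hi (by rw [this (i x), map_one])
    rw [hx]; simp
  have hmem : ∀ g : G, ∃ j, g ∈ U j := fun g =>
    (Subgroup.mem_iSup_of_directed hdir).1 (htop ▸ Subgroup.mem_top g)
  obtain ⟨j1, hj1⟩ := hmem (i x)
  obtain ⟨j2, hj2⟩ := hmem (i y)
  obtain ⟨j, hj1', hj2'⟩ := hdir j1 j2
  let H' : Subgroup H := (U j).comap i
  have hx' : x ∈ H' := hj1' hj1
  have hy' : y ∈ H' := hj2' hj2
  have hno := hU j H' (H'.map p) (i.subgroupComap (U j)) (p.subgroupMap H') (by
    rintro ⟨x, hx⟩ ⟨y, hy⟩ hxy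
    have : i x = i y := congrArg Subtype.val hxy
    exact Subtype.ext (hi this)) (p.subgroupMap_surjective H')
  apply hno
  refine ⟨⟨p x, ⟨x, hx', rfl⟩⟩, ⟨p y, ⟨y, hy', rfl⟩⟩, ?_, ?_⟩
  · exact FRel.of_map (H'.map p).subtype (H'.map p).subtype_injective hrel
  · intro hcon
    exact hne (congrArg Subtype.val hcon)

end Pool.Agent.H35R2
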