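import Mathlib

set_option autoImplicit false

namespace Pool.Agent.H35R2

/-- the two relators of the standard presentation of Thompson's group F -/
def FRel {G : Type} [Group G] (a b : G) : Prop :=
  (a * b⁻¹) * (a⁻¹ * b * a) * (a * b⁻¹)⁻¹ * (a⁻¹ * b * a)⁻¹ = 1 ∧
  (a * b⁻¹) * (a⁻¹ * a⁻¹ * b * a * a) * (a * b⁻¹)⁻¹ * (a⁻¹ * a⁻¹ * b * a * a)⁻¹ = 1

/-- `G` contains a nonabelian quotient of Thompson's group F -/
def HasF (G : Type) [Group G] : Prop := ∃ a b : G, FRel a b ∧ a * b ≠ b * a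

section algebra

variable {G : Type} [Group G]

/-- the standard infinite generating sequence: `xs a b n = a^{-n} b a^n` -/
def xs (a b : G) (n : ℕ) : G := (a ^ n)⁻¹ * b * a ^ n

theorem xs_zero (a b : G) : xs a b 0 = b := by simp [xs]

theorem xs_succ (a b : G) (n : ℕ) : a⁻¹ * xs a b n * a = xs a b (n + 1) := by
  simp only [xs, pow_succ]
  group

theorem conj_pow_xs (a b : G) (n m : ℕ) : (a ^ n)⁻¹ * xs a b m * a ^ n = xs a b (n + m) := by
  have : a ^ (n + m) = a ^ m * a ^ n := by rw [add_comm, pow_add]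
  simp only [xs, this]
  group

theorem comm_of_mul {u v : G} (h : u * v * u⁻¹ * v⁻¹ = 1) : u * v = v * u := by
  have := congrArg (fun t => t * v * u) h
  simpa [mul_assoc] using this

theorem frel_iff (a b : G) : FRel a b ↔
    b⁻¹ * xs a b 1 * b = xs a b 2 ∧ b⁻¹ * xs a b 2 * b = xs a b 3 := by
  have key : ∀ y : G, (a * b⁻¹) * y * (a * b⁻¹)⁻¹ * y⁻¹ = 1 ↔ b⁻¹ * y * b = a⁻¹ * y * a := by
    intro y
    constructor
    · intro h
      have h1 := comm_of_mul h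
      have h2 : b⁻¹ * y = a⁻¹ * y * (a * b⁻¹) := by
        rw [← mul_right_inj a]
        calc a * (b⁻¹ * y) = (a * b⁻¹) * y := by group
          _ = y * (a * b⁻¹) := h1
          _ = _ := by group
      rw [h2]; group
    · intro h
      have h2 : (a * b⁻¹) * y * (a * b⁻¹)⁻¹ = a * (b⁻¹ * y * b) * a⁻¹ := by group
      rw [h2, h]; group
  have e1 : a⁻¹ * b * a = xs a b 1 := by simp [xs]
  have e2 : a⁻¹ * a⁻¹ * b * a * a = xs a b 2 := by simp [xs, pow_two, mul_assoc]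
  unfold FRel
  rw [key, key, e1, e2, xs_succ, xs_succ]

theorem conj_mul3 (b u v w : G) : b⁻¹ * (u * v * w) * b = (b⁻¹ * u * b) * (b⁻¹ * v * b) * (b⁻¹ * w * b) := by
  group

theorem conj_inv' (b u : G) : b⁻¹ * u⁻¹ * b = (b⁻¹ * u * b)⁻¹ := by
  group

/-- conjugating by `b = x_0` shifts `x_m`, `m ≥ 1` -/
theorem xs_conj0 {a b : G} (h : FRel a b) : ∀ m : ℕ, 1 ≤ m →
    b⁻¹ * xs a b m * b = xs a b (m + 1) := by
  obtain ⟨h1, h2⟩ := (frel_iff a b).1 h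
  intro m
  induction m using Nat.strong_induction_on with
  | _ m ih =>
    intro hm
    rcases Nat.lt_or_ge m 3 with h3 | h3
    · interval_cases m
      · exact h1
      · exact h2
    · obtain ⟨k, rfl⟩ : ∃ k, m = k + 2 := ⟨m - 2, by omega⟩
      have hk : 1 ≤ k := by omega
      -- x_{k+2} = x_k^{-1} x_{k+1} x_k
      have e1 : ∀ j : ℕ, (xs a b j)⁻¹ * xs a b (j + 1) * xs a b j = xs a b (j + 2) := by
        intro j
        have := conj_pow_xs a b j 2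
        rw [← this, ← h1]
        have h0 : xs a b j = (a ^ j)⁻¹ * b * a ^ j := rfl
        have h1' := conj_pow_xs a b j 1
        rw [← h1', h0]
        group
      rw [← e1 k, conj_mul3, conj_inv', ih k (by omega) hk, ih (k + 1) (by omega) (by omega)]
      exact e1 (k + 1)

theorem xs_conj {a b : G} (h : FRel a b) (i j : ℕ) (hij : i < j) :
    (xs a b i)⁻¹ * xs a b j * xs a b i = xs a b (j + 1) := by
  obtain ⟨k, rfl⟩ : ∃ k, j = i + k := ⟨j - i, by omega⟩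
  have h0 := xs_conj0 h k (by omega)
  have h1 := conj_pow_xs a b i (k + 1)
  have h2 := conj_pow_xs a b i k
  rw [← h2, add_assoc, ← h1, ← h0]
  have h3 : xs a b i = (a ^ i)⁻¹ * b * a ^ i := rfl
  rw [h3]
  group

/-- `x_j x_i = x_i x_{j+1}` -/
theorem xs_mul {a b : G} (h : FRel a b) (i j : ℕ) (hij : i < j) :
    xs a b j * xs a b i = xs a b i * xs a b (j + 1) := by
  rw [← xs_conj h i j hij]; group

/-- the first generator of the copy of F in the commutator subgroup -/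
def ca (a b : G) : G := xs a b 0 * (xs a b 1)⁻¹
/-- the second generator of the copy of F in the commutator subgroup -/
def cb (a b : G) : G := xs a b 1 * xs a b 1 * (xs a b 2)⁻¹ * (xs a b 1)⁻¹

theorem conj4 (g u v w z : G) : g⁻¹ * (u * v * w⁻¹ * z⁻¹) * g =
    (g⁻¹ * u * g) * (g⁻¹ * v * g) * (g⁻¹ * w * g)⁻¹ * (g⁻¹ * z * g)⁻¹ := by
  group

theorem frel_c {a b : G} (h : FRel a b) : FRel (ca a b) (cb a b) := by
  have hc := xs_conj h
  -- y2 = ca⁻¹ cb ca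
  have hy : (ca a b)⁻¹ * cb a b * ca a b =
      xs a b 1 * (xs a b 2 * xs a b 2 * (xs a b 3)⁻¹ * (xs a b 2)⁻¹) * (xs a b 1)⁻¹ := by
    have e : (xs a b 0)⁻¹ * (xs a b 1 * xs a b 1 * (xs a b 2)⁻¹ * (xs a b 1)⁻¹) * xs a b 0 =
        xs a b 2 * xs a b 2 * (xs a b 3)⁻¹ * (xs a b 2)⁻¹ := by
      rw [conj4, hc 0 1 (by omega), hc 0 2 (by omega)]
    unfold ca cb
    rw [← e]; group
  -- z = x2 x2 x3⁻¹ x2⁻¹, shift z = x3 x3 x4⁻¹ x3⁻¹
  set z := xs a b 2 * xs a b 2 * (xs a b 3)⁻¹ * (xs a b 2)⁻¹ with hz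
  set z' := xs a b 3 * xs a b 3 * (xs a b 4)⁻¹ * (xs a b 3)⁻¹ with hz'
  have hz0 : (xs a b 0)⁻¹ * z * xs a b 0 = z' := by
    rw [hz, conj4, hc 0 2 (by omega), hc 0 3 (by omega)]
  have hz1 : (xs a b 1)⁻¹ * z * xs a b 1 = z' := by
    rw [hz, conj4, hc 1 2 (by omega), hc 1 3 (by omega)]
  set z'' := xs a b 4 * xs a b 4 * (xs a b 5)⁻¹ * (xs a b 4)⁻¹ with hz''
  have hz0' : (xs a b 0)⁻¹ * z' * xs a b 0 = z'' := by
    rw [hz', conj4, hc 0 3 (by omega), hc 0 4 (by omega)]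
  have hz1' : (xs a b 1)⁻¹ * z' * xs a b 1 = z'' := by
    rw [hz', conj4, hc 1 3 (by omega), hc 1 4 (by omega)]
  -- y3 = ca⁻¹ y2 ca
  have hy3 : (ca a b)⁻¹ * (xs a b 1 * z * (xs a b 1)⁻¹) * ca a b =
      xs a b 1 * (xs a b 2 * z' * (xs a b 2)⁻¹) * (xs a b 1)⁻¹ := by
    have e : (xs a b 0)⁻¹ * (xs a b 1 * z * (xs a b 1)⁻¹) * xs a b 0 =
        xs a b 2 * z' * (xs a b 2)⁻¹ := by
      calc _ = ((xs a b 0)⁻¹ * xs a b 1 * xs a b 0) * ((xs a b 0)⁻¹ * z * xs a b 0) *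
            ((xs a b 0)⁻¹ * xs a b 1 * xs a b 0)⁻¹ := by group
        _ = _ := by rw [hc 0 1 (by omega), hz0]
    unfold ca
    rw [← e]; group
  have hu : ca a b * (cb a b)⁻¹ = xs a b 1 * (xs a b 0 * (xs a b 1)⁻¹) * (xs a b 1)⁻¹ := by
    unfold ca cb
    have := xs_mul h 0 1 (by omega)
    calc _ = xs a b 0 * xs a b 2 * (xs a b 1)⁻¹ * (xs a b 1)⁻¹ := by group
      _ = xs a b 1 * xs a b 0 * (xs a b 1)⁻¹ * (xs a b 1)⁻¹ := by rw [this]
      _ = _ := by group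
  have comm_lem : ∀ w w' : G, (xs a b 0)⁻¹ * w * xs a b 0 = w' → (xs a b 1)⁻¹ * w * xs a b 1 = w' →
      (xs a b 0 * (xs a b 1)⁻¹) * w * (xs a b 0 * (xs a b 1)⁻¹)⁻¹ * w⁻¹ = 1 := by
    intro w w' h0 h1
    have e0 : w = xs a b 0 * w' * (xs a b 0)⁻¹ := by rw [← h0]; group
    have e1 : w' = (xs a b 1)⁻¹ * w * xs a b 1 := h1.symm
    calc _ = xs a b 0 * ((xs a b 1)⁻¹ * w * xs a b 1) * (xs a b 0)⁻¹ * w⁻¹ := by group
      _ = w * w⁻¹ := by rw [← e1, ← e0]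
      _ = 1 := by group
  constructor
  · rw [hy, hu]
    have := comm_lem z z' hz0 hz1
    calc _ = xs a b 1 * ((xs a b 0 * (xs a b 1)⁻¹) * z * (xs a b 0 * (xs a b 1)⁻¹)⁻¹ * z⁻¹) *
          (xs a b 1)⁻¹ := by group
      _ = 1 := by rw [this]; group
  · have e3 : (ca a b)⁻¹ * (ca a b)⁻¹ * cb a b * ca a b * ca a b =
        xs a b 1 * (xs a b 2 * z' * (xs a b 2)⁻¹) * (xs a b 1)⁻¹ := by
      rw [← hy3, ← hy]; group
    rw [e3, hu]
    set w := xs a b 2 * z' * (xs a b 2)⁻¹ with hw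
    have e0 : (xs a b 0)⁻¹ * w * xs a b 0 = xs a b 3 * z'' * (xs a b 3)⁻¹ := by
      calc _ = ((xs a b 0)⁻¹ * xs a b 2 * xs a b 0) * ((xs a b 0)⁻¹ * z' * xs a b 0) *
            ((xs a b 0)⁻¹ * xs a b 2 * xs a b 0)⁻¹ := by rw [hw]; group
        _ = _ := by rw [hc 0 2 (by omega), hz0']
    have e1 : (xs a b 1)⁻¹ * w * xs a b 1 = xs a b 3 * z'' * (xs a b 3)⁻¹ := by
      calc _ = ((xs a b 1)⁻¹ * xs a b 2 * xs a b 1) * ((xs a b 1)⁻¹ * z' * xs a b 1) *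
            ((xs a b 1)⁻¹ * xs a b 2 * xs a b 1)⁻¹ := by rw [hw]; group
        _ = _ := by rw [hc 1 2 (by omega), hz1']
    have := comm_lem w _ e0 e1
    calc _ = xs a b 1 * ((xs a b 0 * (xs a b 1)⁻¹) * w * (xs a b 0 * (xs a b 1)⁻¹)⁻¹ * w⁻¹) *
          (xs a b 1)⁻¹ := by group
      _ = 1 := by rw [this]; group

theorem c_noncomm {a b : G} (h : FRel a b) (hne : a * b ≠ b * a) :
    ca a b * cb a b ≠ cb a b * ca a b := by
  intro hcomm
  apply hne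
  -- x0 x2⁻¹ x1 = x1 x2⁻¹ x0 after conjugation by x1
  have h1 : xs a b 0 * (xs a b 2)⁻¹ * xs a b 1 = xs a b 1 * (xs a b 2)⁻¹ * xs a b 0 := by
    have hc : (xs a b 0)⁻¹ * xs a b 1 * xs a b 0 = xs a b 2 := xs_conj h 0 1 (by omega)
    have hc' : (xs a b 1)⁻¹ * xs a b 0 = xs a b 0 * (xs a b 2)⁻¹ := by
      rw [← hc]; group
    have h2 := congrArg (fun t => (xs a b 1)⁻¹ * t * xs a b 1 * xs a b 2) hcomm
    simp only [ca, cb] at h2
    calc xs a b 0 * (xs a b 2)⁻¹ * xs a b 1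
        = (xs a b 1)⁻¹ * xs a b 0 * xs a b 1 := by rw [hc']
      _ = (xs a b 1)⁻¹ * (xs a b 0 * (xs a b 1)⁻¹ * (xs a b 1 * xs a b 1 * (xs a b 2)⁻¹ *
            (xs a b 1)⁻¹)) * xs a b 1 * xs a b 2 := by group
      _ = _ := h2
      _ = xs a b 1 * (xs a b 2)⁻¹ * ((xs a b 1)⁻¹ * xs a b 0) * xs a b 2 := by group
      _ = xs a b 1 * (xs a b 2)⁻¹ * xs a b 0 := by rw [hc']; group
  have e02 : (xs a b 2)⁻¹ * xs a b 0 = xs a b 0 * (xs a b 3)⁻¹ := by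
    rw [← xs_conj h 0 2 (by omega)]; group
  have e12 : (xs a b 2)⁻¹ * xs a b 1 = xs a b 1 * (xs a b 3)⁻¹ := by
    rw [← xs_conj h 1 2 (by omega)]; group
  have h3 : xs a b 0 * xs a b 1 = xs a b 0 * xs a b 2 := by
    have h4 : xs a b 0 * xs a b 1 * (xs a b 3)⁻¹ = xs a b 1 * xs a b 0 * (xs a b 3)⁻¹ := by
      rw [mul_assoc, ← e12, ← mul_assoc, h1, mul_assoc, e02, ← mul_assoc]
    rw [mul_right_cancel h4]
    exact xs_mul h 0 1 (by omega)
  have h4 : xs a b 1 = xs a b 2 := mul_left_cancel h3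
  -- b = a⁻¹ b a
  have h5 : b = a⁻¹ * b * a := by
    have := congrArg (fun t => a * t * a⁻¹) h4
    simp only [← xs_succ, xs_zero] at this
    calc b = a * (a⁻¹ * b * a) * a⁻¹ := by group
      _ = _ := this
      _ = _ := by group
  calc a * b = a * (a⁻¹ * b * a) := by rw [← h5]
    _ = b * a := by group

end algebra

end Pool.Agent.H35R2
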